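import Pool.Agent.ASE.Stmts2b

/-!
# Squad ASE, row RFM: equivariance of `e` and `O`
-/

set_option autoImplicit false
set_option linter.unusedSectionVars false

open scoped BigOperators

noncomputable section

namespace Pool.Agent.PP.SE.H32

open Pool.Agent.Helper51_AWC Pool.Agent.Helper79_WRA Pool.Agent.PP Pool.Agent.PP.KF
open Pool.Agent.PP.K9 Pool.Agent.PP.K9.H97 Pool.Agent.PP.H75 Pool.Agent.PP.T3 Pool.Agent.PP.SO
open Pool.Agent.PP.SD

attribute [local instance] Ideal.Quotient.field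

/-- `1 + ℓ q` and `-(1 + ℓ q')` are different. -/
theorem two_ne {ℓ : ℕ} [Fact ℓ.Prime] (h2 : ℓ ≠ 2) {q q' : ℚ} (hq : q ∈ SOR.Rl ℓ)
    (hq' : q' ∈ SOR.Rl ℓ) : (1 + ℓ * q : ℚ) ≠ -(1 + ℓ * q') := by
  intro h
  have hp : Nat.Prime ℓ := Fact.out
  have h1 : (ℓ : ℚ) * -(q + q') = 2 := by linear_combination -h
  have h3 : -(q + q') ∈ SOR.Rl ℓ := neg_mem (add_mem hq hq')
  have h4 : ¬ ℓ ∣ (-(q + q')).den := h3
  have h5 : -(q + q') = 2 / (ℓ : ℚ) := by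
    rw [eq_div_iff (Nat.cast_ne_zero.2 hp.ne_zero), mul_comm]
    exact h1
  have hc : Nat.Coprime 2 ℓ := (Nat.coprime_primes Nat.prime_two hp).2 (Ne.symm h2)
  have h6 : ((2 : ℤ) / (ℓ : ℤ) : ℚ).den = ℓ := by
    have h7 := Rat.den_div_eq_of_coprime (a := 2) (b := (ℓ : ℤ)) (by exact_mod_cast hp.pos)
      (by simpa using hc)
    exact_mod_cast h7
  have h8 : (-(q + q')) = ((2 : ℤ) / (ℓ : ℤ) : ℚ) := by
    rw [h5]
    push_cast
    rfl
  rw [h8, h6] at h4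
  exact h4 dvd_rfl

/-- signs -/
theorem sgn_eq {ℓ : ℕ} [Fact ℓ.Prime] (h2 : ℓ ≠ 2) {a b : ℤ} (ha : a = 1 ∨ a = -1)
    (hb : b = 1 ∨ b = -1) {z : ℂ} {q q' : ℚ} (hq : q ∈ SOR.Rl ℓ) (hq' : q' ∈ SOR.Rl ℓ)
    (h1 : (a : ℂ) * z = ((1 + ℓ * q : ℚ) : ℂ)) (h3 : (b : ℂ) * z = ((1 + ℓ * q' : ℚ) : ℂ)) :
    a = b := by
  by_contra hne
  have hab : a = -b := by
    rcases ha with rfl | rfl <;> rcases hb with rfl | rfl <;> simp_all
  apply two_ne h2 hq hq'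
  have h4 : ((1 + ℓ * q : ℚ) : ℂ) = ((-(1 + ℓ * q') : ℚ) : ℂ) := by
    rw [← h1, hab, Rat.cast_neg, ← h3]
    push_cast
    ring
  exact_mod_cast h4

/-- The sums over two sets of linear characters determine the sets. -/
theorem sub_eq {V : Type} [CommGroup V] [Finite V] (k : Subgroup V) (L : Set (V → ℂ))
    (hl : ∀ s ∈ L, s ∈ lin V)
    (hsep : ∀ s ∈ L, ∀ s' ∈ L, s ≠ s' → ∑ᶠ y ∈ (k : Set V), s y * s' y⁻¹ = 0)
    (A A' : Set (V → ℂ)) (hA : A ⊆ L) (hA' : A' ⊆ L) (fA : A.Finite) (fA' : A'.Finite)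
    (hs : ∀ y ∈ k, ∑ᶠ s ∈ A, s y = ∑ᶠ s ∈ A', s y) : A ⊆ A' := by
  classical
  intro s₀ hs₀
  by_contra hn
  have hk : (k : Set V).Finite := Set.toFinite _
  have key : ∀ B : Set (V → ℂ), ∀ fB : B.Finite, B ⊆ L →
      ∑ᶠ y ∈ (k : Set V), (∑ᶠ s ∈ B, s y) * s₀ y⁻¹ =
        if s₀ ∈ B then (Nat.card k : ℂ) else 0 := by
    intro B fB hB
    rw [finsum_mem_eq_finite_toFinset_sum _ hk]
    have h1 : ∀ y ∈ hk.toFinset, (∑ᶠ s ∈ B, s y) * s₀ y⁻¹ =
        ∑ s ∈ fB.toFinset, s y * s₀ y⁻¹ := by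
      intro y _
      rw [finsum_mem_eq_finite_toFinset_sum _ fB, Finset.sum_mul]
    rw [Finset.sum_congr rfl h1, Finset.sum_comm]
    have h2 : ∀ s ∈ fB.toFinset, ∑ y ∈ hk.toFinset, s y * s₀ y⁻¹ =
        if s = s₀ then (Nat.card k : ℂ) else 0 := by
      intro s hs
      rw [Set.Finite.mem_toFinset] at hs
      split_ifs with h
      · subst h
        have h3 : ∀ y ∈ hk.toFinset, s y * s y⁻¹ = 1 := by
          intro y _
          rw [← (hl s (hB hs)).2, mul_inv_cancel, (hl s (hB hs)).1]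
        rw [Finset.sum_congr rfl h3, Finset.sum_const, nsmul_eq_mul, mul_one,
          ← Set.ncard_eq_toFinset_card _ hk, ← Nat.card_coe_set_eq]
        rfl
      · have h4 := hsep s (hB hs) s₀ (hA hs₀) h
        rwa [finsum_mem_eq_finite_toFinset_sum _ hk] at h4
    rw [Finset.sum_congr rfl h2, Finset.sum_ite_eq' fB.toFinset s₀ (fun _ => (Nat.card k : ℂ))]
    simp only [Set.Finite.mem_toFinset]
  have e1 := key A fA hA
  have e2 := key A' fA' hA'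
  rw [if_pos hs₀] at e1
  rw [if_neg hn] at e2
  have e3 : ∑ᶠ y ∈ (k : Set V), (∑ᶠ s ∈ A, s y) * s₀ y⁻¹ =
      ∑ᶠ y ∈ (k : Set V), (∑ᶠ s ∈ A', s y) * s₀ y⁻¹ := by
    apply finsum_mem_congr rfl
    intro y hy
    rw [hs y hy]
  rw [e1, e2] at e3
  have : Nat.card k ≠ 0 := Nat.card_pos.ne'
  exact this (by exact_mod_cast e3)

theorem sub_eq' {V : Type} [CommGroup V] [Finite V] (k : Subgroup V) (L : Set (V → ℂ))
    (hl : ∀ s ∈ L, s ∈ lin V)
    (hsep : ∀ s ∈ L, ∀ s' ∈ L, s ≠ s' → ∑ᶠ y ∈ (k : Set V), s y * s' y⁻¹ = 0)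
    (A A' : Set (V → ℂ)) (hA : A ⊆ L) (hA' : A' ⊆ L) (fA : A.Finite) (fA' : A'.Finite)
    (hs : ∀ y ∈ k, ∑ᶠ s ∈ A, s y = ∑ᶠ s ∈ A', s y) : A = A' :=
  Set.Subset.antisymm (sub_eq k L hl hsep A A' hA hA' fA fA' hs)
    (sub_eq k L hl hsep A' A hA' hA fA' fA (fun y hy => (hs y hy).symm))

section grp

variable {V₀ G : Type} [CommGroup V₀] [Group G] {F : Type}

theorem mem_C (B : Bk F V₀ G) (W : Subgroup V₀) (g : G) :
    g ∈ B.C W ↔ ∀ w ∈ W, B.i w * g = g * B.i w := by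
  unfold Bk.C
  rw [Subgroup.mem_centralizer_iff]
  constructor
  · intro h w hw
    exact h _ (Subgroup.mem_map_of_mem _ hw)
  · rintro h _ ⟨w, hw, rfl⟩
    exact h w hw

theorem card_C (B : Bk F V₀ G) (W : Subgroup V₀) (σ : MulAut V₀) (t : G)
    (ht : ∀ v, t * B.i v * t⁻¹ = B.i (σ v)) : Nat.card (B.C (mp σ W)) = Nat.card (B.C W) := by
  have h1 : B.C (mp σ W) = (B.C W).map (MulAut.conj t).toMonoidHom := by
    ext g
    rw [Subgroup.mem_map, mem_C]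
    constructor
    · intro h
      refine ⟨t⁻¹ * g * t, ?_, ?_⟩
      · rw [mem_C]
        intro w hw
        have h2 := h (σ w) (Subgroup.mem_map_of_mem _ hw)
        rw [← ht w] at h2
        have h3 : t * (B.i w * (t⁻¹ * g * t)) * t⁻¹ = t * ((t⁻¹ * g * t) * B.i w) * t⁻¹ := by
          calc t * (B.i w * (t⁻¹ * g * t)) * t⁻¹ = (t * B.i w * t⁻¹) * g := by group
            _ = g * (t * B.i w * t⁻¹) := h2
            _ = t * ((t⁻¹ * g * t) * B.i w) * t⁻¹ := by group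
        exact mul_left_cancel (mul_right_cancel h3)
      · show t * (t⁻¹ * g * t) * t⁻¹ = g
        group
    · rintro ⟨h, hh, rfl⟩ w hw
      obtain ⟨w', hw', rfl⟩ := hw
      have h4 := (mem_C B W h).1 hh w' hw'
      show B.i (σ w') * (t * h * t⁻¹) = (t * h * t⁻¹) * B.i (σ w')
      rw [← ht w']
      calc t * B.i w' * t⁻¹ * (t * h * t⁻¹) = t * (B.i w' * h) * t⁻¹ := by group
        _ = t * (h * B.i w') * t⁻¹ := by rw [h4]
        _ = t * h * t⁻¹ * (t * B.i w' * t⁻¹) := by group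
  rw [h1]
  exact Subgroup.card_map_of_injective (MulAut.conj t).injective

end grp

theorem rfm (hB : GebStmt) (hC : GecStmt) (hV : VxmStmt) (hL : RflStmt) : RfmStmt := by
  intro ℓ _ M _ hℓ h2 V₀ G _ _ _ _ E₀ hF B hB0 W hW σ hσ t ht hti N N' e e' O O' hc hc' hN χ hχ
  obtain ⟨-, gn, -, gR, -, gm, gk, -⟩ := hB ℓ V₀ E₀ σ hσ W
  have hW' : mp σ W ∈ RL ℓ E₀ := gR.2 hW
  obtain ⟨hT, -⟩ := hL ℓ M hℓ h2 V₀ G E₀ hF B hB0 W hW σ hσ t ht hti
  obtain ⟨hχ', -, hvx, -, -⟩ := hT χ hχ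
  obtain ⟨-, ⟨-, -, -, ⟨ν, hν, hχν⟩, -⟩, -⟩ := hV ℓ M hℓ h2 V₀ G E₀ hF B hB0 W hW χ hχ
  obtain ⟨-, ⟨-, -, -, ⟨ν', hν', hχν'⟩, -⟩, -⟩ :=
    hV ℓ M hℓ h2 V₀ G E₀ hF B hB0 (mp σ W) hW' _ hχ'
  have hcard := card_C B W σ t hti
  have h1 : χ (t⁻¹ * 1 * t) = χ 1 := by
    rw [mul_one, inv_mul_cancel]
  have hs := (hc.lv ν hν).sg χ hχν
  have hs' := (hc'.lv ν' hν').sg _ hχν'
  have he : e' (fun g => χ (t⁻¹ * g * t)) = e χ := by
    by_cases hx : χ ∈ N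
    · obtain ⟨q, hq, eq⟩ := hc.un χ hχ hx
      obtain ⟨q', hq', eq'⟩ := hc'.un _ hχ' ((hN χ hχ).2 hx)
      rw [gn, hcard] at eq'
      simp only [h1] at eq'
      rw [mul_assoc, mul_div_assoc] at eq eq'
      exact sgn_eq h2 hs' hs hq' hq eq' eq
    · obtain ⟨q, hq, eq⟩ := hc.ux
      obtain ⟨q', hq', eq'⟩ := hc'.ux
      have eq := eq χ hχ hx
      have eq' := eq' _ hχ' (fun h => hx ((hN χ hχ).1 h))
      rw [hcard] at eq'
      simp only [h1] at eq'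
      rw [mul_assoc, mul_div_assoc] at eq eq'
      exact sgn_eq h2 hs' hs hq' hq eq' eq
  refine ⟨he, fun hx => ?_⟩
  have hx' : (fun g => χ (t⁻¹ * g * t)) ∉ N' := fun h => hx ((hN χ hχ).1 h)
  obtain ⟨⟨s, hs1, hs2, hO⟩, hv⟩ := (hc.lv ν hν).vX χ hχν hx
  obtain ⟨⟨s', hs1', hs2', hO'⟩, hv'⟩ := (hc'.lv ν' hν').vX _ hχν' hx'
  obtain ⟨-, -, lf, -, -, -, -, -, ga, gb, -, gd, -⟩ := hC ℓ V₀ E₀ hF W hW
  obtain ⟨-, -, lf', -, -, -, -, -, ga', gb', -, -, -⟩ := hC ℓ V₀ E₀ hF (mp σ W) hW'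
  have hOL : O χ ⊆ lk W := by
    rw [hO]
    rintro _ ⟨τ, hτ, rfl⟩
    exact (ga s hs1 τ hτ).1
  have hOL' : O' (fun g => χ (t⁻¹ * g * t)) ⊆ lk (mp σ W) := by
    rw [hO']
    rintro _ ⟨τ, hτ, rfl⟩
    exact (ga' s' hs1' τ hτ).1
  -- the map `s ↦ s ∘ σ`
  have hinj : Function.Injective (fun (s : V₀ → ℂ) (v : V₀) => s (σ v)) := by
    intro a b hab
    funext v
    have := congrFun hab (σ⁻¹ v)
    simpa using this
  have hQL : (fun (s : V₀ → ℂ) (v : V₀) => s (σ v)) '' O' (fun g => χ (t⁻¹ * g * t)) ⊆ lk W := by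
    rintro _ ⟨u, hu, rfl⟩
    obtain ⟨⟨a1, a2⟩, a3⟩ := hOL' hu
    refine ⟨⟨?_, ?_⟩, ?_⟩
    · show u (σ 1) = 1
      rw [map_one]
      exact a1
    · intro v w
      show u (σ (v * w)) = u (σ v) * u (σ w)
      rw [map_mul, a2]
    · intro w hw
      exact a3 _ ((gm w).2 hw)
  have hmain : O χ = (fun (s : V₀ → ℂ) (v : V₀) => s (σ v)) '' O' (fun g => χ (t⁻¹ * g * t)) := by
    refine sub_eq' (kW E₀ W) (lk W) (fun s hs => hs.1) ?_ _ _ hOL hQL (lf.subset hOL)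
      (lf.subset hQL) ?_
    · intro a ha b hb hab
      have hm : (fun v => a v * b v⁻¹) ∈ lk W := by
        obtain ⟨⟨a1, a2⟩, a3⟩ := ha
        obtain ⟨⟨b1, b2⟩, b3⟩ := hb
        refine ⟨⟨?_, ?_⟩, ?_⟩
        · show a 1 * b 1⁻¹ = 1
          rw [inv_one, a1, b1, one_mul]
        · intro v w
          show a (v * w) * b (v * w)⁻¹ = (a v * b v⁻¹) * (a w * b w⁻¹)
          rw [a2, mul_inv, b2]
          ring
        · intro w hw
          show a w * b w⁻¹ = 1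
          rw [a3 w hw, b3 _ (W.inv_mem hw), one_mul]
      have hne : (fun v => a v * b v⁻¹) ≠ (fun _ => 1) := by
        intro h
        apply hab
        funext v
        have h3 : a v * b v⁻¹ = 1 := congrFun h v
        have h4 : b v⁻¹ * b v = 1 := by
          rw [← hb.1.2, inv_mul_cancel, hb.1.1]
        calc a v = a v * (b v⁻¹ * b v) := by rw [h4, mul_one]
          _ = (a v * b v⁻¹) * b v := by ring
          _ = b v := by rw [h3, one_mul]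
      exact gd _ hm hne
    · intro y hy
      have hsum : ∑ᶠ u ∈ (fun (s : V₀ → ℂ) (v : V₀) => s (σ v)) ''
          O' (fun g => χ (t⁻¹ * g * t)), u y =
          ∑ᶠ u ∈ O' (fun g => χ (t⁻¹ * g * t)), u (σ y) :=
        finsum_mem_image hinj.injOn
      rw [hsum]
      by_cases hy1 : y = 1
      · subst hy1
        rw [map_one]
        have c1 : ∀ u ∈ O χ, u (1 : V₀) = 1 := fun u hu => (hOL hu).1.1
        have c2 : ∀ u ∈ O' (fun g => χ (t⁻¹ * g * t)), u (1 : V₀) = 1 :=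
          fun u hu => (hOL' hu).1.1
        have f1 := lf.subset hOL
        have f2 := lf'.subset hOL'
        rw [finsum_mem_congr rfl c1, finsum_mem_congr rfl c2,
          finsum_mem_eq_finite_toFinset_sum _ f1, finsum_mem_eq_finite_toFinset_sum _ f2,
          Finset.sum_const, Finset.sum_const, ← Set.ncard_eq_toFinset_card _ f1,
          ← Set.ncard_eq_toFinset_card _ f2, hO, hO', (gb s hs1 hs2).1, (gb' s' hs1' hs2').1, gn]
      · have hy2 : σ y ∈ kW E₀ (mp σ W) := (gk y).2 hy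
        have hy3 : σ y ≠ 1 := by
          intro h
          apply hy1
          have := congrArg (σ⁻¹ : MulAut V₀) h
          simpa using this
        have e1 := hv y hy hy1
        have e2 := hv' (σ y) hy2 hy3
        rw [hvx y, e1, he] at e2
        have he0 : (e χ : ℂ) ≠ 0 := by
          rcases hs with h | h <;> rw [h] <;> norm_num
        exact mul_left_cancel₀ he0 e2
  ext u
  constructor
  · intro hu
    show (fun v => u (σ v)) ∈ O χ
    rw [hmain]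
    exact ⟨u, hu, rfl⟩
  · intro hu
    have hu : (fun v => u (σ v)) ∈ O χ := hu
    rw [hmain] at hu
    obtain ⟨w, hw, hwu⟩ := hu
    have := hinj hwu
    rwa [← this]

end Pool.Agent.PP.SE.H32
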